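import Pool.Agent.Helper41.PS.Goals

open Finset
open Pool.Agent.Helper41.PS

namespace Pool.Agent.Helper77.PS.PZ

theorem t : StmtPZ := by
  intro I X t H γ τ c C hH hγ hτ hc hC hnn hcard hsum hX2 ht2
  set G := I.filter (fun i => c / 4 * γ ≤ X i ∧ t i ≤ 4 * C / c * τ) with hG
  -- pointwise bound
  have hpt : ∀ i ∈ I, X i ≤ (if i ∈ G then X i else 0) + c / 4 * γ +
      (c / (8 * C)) * γ * ((X i / γ) ^ 2 + (t i / τ) ^ 2) := by
    intro i hi
    obtain ⟨hx0, ht0⟩ := hnn i hi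
    have h2 : 0 ≤ (c / (8 * C)) * γ * ((X i / γ) ^ 2 + (t i / τ) ^ 2) := by positivity
    by_cases hg : i ∈ G
    · rw [if_pos hg]
      have : 0 ≤ c / 4 * γ := by positivity
      linarith
    · rw [if_neg hg]
      by_cases h1 : c / 4 * γ ≤ X i
      · have h3 : 4 * C / c * τ < t i := by
          by_contra hcon
          push Not at hcon
          exact hg (by rw [hG, mem_filter]; exact ⟨hi, h1, hcon⟩)
        have h4 : 4 * C / c < t i / τ := by rwa [lt_div_iff₀ hτ]
        have h5 : X i = γ * (X i / γ) := by field_simp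
        set a := X i / γ with ha
        set b := t i / τ with hb
        have ha0 : 0 ≤ a := by positivity
        have hb0 : 0 ≤ b := by positivity
        have h6 : a ≤ (c / (4 * C)) * (a * b) := by
          have : 1 ≤ (c / (4 * C)) * b := by
            have h7 : (c / (4 * C)) * (4 * C / c) = 1 := by field_simp
            calc (1 : ℝ) = (c / (4 * C)) * (4 * C / c) := h7.symm
              _ ≤ (c / (4 * C)) * b := by
                apply mul_le_mul_of_nonneg_left h4.le; positivity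
          nlinarith
        have h8 : a * b ≤ (a ^ 2 + b ^ 2) / 2 := by nlinarith [sq_nonneg (a - b)]
        have h9 : (c / (4 * C)) * (a * b) ≤ (c / (4 * C)) * ((a ^ 2 + b ^ 2) / 2) :=
          mul_le_mul_of_nonneg_left h8 (by positivity)
        have h10 : a ≤ (c / (8 * C)) * (a ^ 2 + b ^ 2) := by
          calc a ≤ (c / (4 * C)) * ((a ^ 2 + b ^ 2) / 2) := le_trans h6 h9
            _ = (c / (8 * C)) * (a ^ 2 + b ^ 2) := by field_simp; ring
        have h11 : γ * a ≤ γ * ((c / (8 * C)) * (a ^ 2 + b ^ 2)) :=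
          mul_le_mul_of_nonneg_left h10 hγ.le
        have h12 : 0 ≤ c / 4 * γ := by positivity
        rw [h5]
        nlinarith
      · push Not at h1
        linarith
  have hS := Finset.sum_le_sum hpt
  rw [Finset.sum_add_distrib, Finset.sum_add_distrib] at hS
  have e1 : ∑ i ∈ I, (if i ∈ G then X i else 0) = ∑ i ∈ G, X i := by
    rw [← Finset.sum_filter]
    congr 1
    rw [hG]
    ext i
    simp only [mem_filter]
    tauto
  have e2 : ∑ i ∈ I, c / 4 * γ ≤ c / 4 * (H * γ) := by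
    rw [Finset.sum_const, nsmul_eq_mul]
    have : 0 ≤ c / 4 * γ := by positivity
    nlinarith
  have e3 : ∑ i ∈ I, (c / (8 * C)) * γ * ((X i / γ) ^ 2 + (t i / τ) ^ 2) ≤ c / 4 * (H * γ) := by
    rw [← Finset.mul_sum, Finset.sum_add_distrib]
    have f1 : ∑ i ∈ I, (X i / γ) ^ 2 ≤ C * H := by
      have : ∑ i ∈ I, (X i / γ) ^ 2 = (∑ i ∈ I, X i ^ 2) / γ ^ 2 := by
        rw [Finset.sum_div]; exact Finset.sum_congr rfl (fun i _ => by rw [div_pow])
      rw [this, div_le_iff₀ (by positivity)]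
      nlinarith
    have f2 : ∑ i ∈ I, (t i / τ) ^ 2 ≤ C * H := by
      have : ∑ i ∈ I, (t i / τ) ^ 2 = (∑ i ∈ I, t i ^ 2) / τ ^ 2 := by
        rw [Finset.sum_div]; exact Finset.sum_congr rfl (fun i _ => by rw [div_pow])
      rw [this, div_le_iff₀ (by positivity)]
      nlinarith
    calc (c / (8 * C)) * γ * (∑ i ∈ I, (X i / γ) ^ 2 + ∑ i ∈ I, (t i / τ) ^ 2)
        ≤ (c / (8 * C)) * γ * (C * H + C * H) := by
          apply mul_le_mul_of_nonneg_left (add_le_add f1 f2); positivity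
      _ = c / 4 * (H * γ) := by field_simp; ring
  have hGsum : c / 2 * (H * γ) ≤ ∑ i ∈ G, X i := by
    rw [e1] at hS
    linarith
  -- Cauchy-Schwarz
  have hCS : (∑ i ∈ G, X i) ^ 2 ≤ (G.card : ℝ) * ∑ i ∈ G, X i ^ 2 := sq_sum_le_card_mul_sum_sq
  have hsub : ∑ i ∈ G, X i ^ 2 ≤ ∑ i ∈ I, X i ^ 2 :=
    Finset.sum_le_sum_of_subset_of_nonneg (Finset.filter_subset _ _) (fun i _ _ => sq_nonneg _)
  have hfin : (c / 2 * (H * γ)) ^ 2 ≤ (G.card : ℝ) * (C * (H * γ ^ 2)) := by
    calc (c / 2 * (H * γ)) ^ 2 ≤ (∑ i ∈ G, X i) ^ 2 := by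
          apply pow_le_pow_left₀ (by positivity) hGsum
      _ ≤ (G.card : ℝ) * ∑ i ∈ G, X i ^ 2 := hCS
      _ ≤ (G.card : ℝ) * (C * (H * γ ^ 2)) := by
          apply mul_le_mul_of_nonneg_left (le_trans hsub hX2); positivity
  have hpos : 0 < C * (H * γ ^ 2) := by positivity
  have hle : (c / 2 * (H * γ)) ^ 2 / (C * (H * γ ^ 2)) ≤ (G.card : ℝ) := by
    rw [div_le_iff₀ hpos]; exact hfin
  calc c ^ 2 / (4 * C) * H = (c / 2 * (H * γ)) ^ 2 / (C * (H * γ ^ 2)) := by field_simp; ring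
    _ ≤ (G.card : ℝ) := hle

end Pool.Agent.Helper77.PS.PZ
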